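import Mathlib

set_option autoImplicit false

namespace Pool.Agent.Results.MP_f0defb_al.FreeSolutionNotInjective

universe u

/-- The map `r × id` on triples. -/
def r12 {Y : Type u} (r : Y × Y → Y × Y) : Y × Y × Y → Y × Y × Y :=
  fun p => ((r (p.1, p.2.1)).1, (r (p.1, p.2.1)).2, p.2.2)

/-- The map `id × r` on triples. -/
def r23 {Y : Type u} (r : Y × Y → Y × Y) : Y × Y × Y → Y × Y × Y :=
  fun p => (p.1, r (p.2.1, p.2.2))

/-- A set-theoretic solution of the Yang-Baxter equation: a map `r (x, y) = (λ_x(y), ρ_y(x))`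
satisfying the braid relation, with all `λ_x` and all `ρ_y` bijective. -/
structure Solution (Y : Type u) where
  /-- the map `r` -/
  r : Y × Y → Y × Y
  /-- the braid relation -/
  braid : r12 r ∘ r23 r ∘ r12 r = r23 r ∘ r12 r ∘ r23 r
  /-- each `λ_x` is bijective -/
  lam_bij : ∀ x : Y, Function.Bijective (fun y : Y => (r (x, y)).1)
  /-- each `ρ_y` is bijective -/
  rho_bij : ∀ y : Y, Function.Bijective (fun x : Y => (r (x, y)).2)

/-- Morphisms of solutions. -/
def IsMorphism {Y Z : Type u} (S : Solution Y) (T : Solution Z) (f : Y → Z) : Prop :=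
  Prod.map f f ∘ S.r = T.r ∘ Prod.map f f

/-- The solution `S` on `F` together with `i : X → F` is free on `X`. -/
def IsFreeSolution {X F : Type u} (S : Solution F) (i : X → F) : Prop :=
  ∀ (Z : Type u) (T : Solution Z) (f : X → Z),
    ∃! φ : F → Z, IsMorphism S T φ ∧ ∀ x : X, φ (i x) = f x

/-- The structure group of a solution: generators `Y`, relations `x ∘ y = λ_x(y) ∘ ρ_y(x)`. -/
abbrev StructureGroup {Y : Type u} (S : Solution Y) : Type u :=
  PresentedGroup {w : FreeGroup Y | ∃ x y : Y,
    w = FreeGroup.of x * FreeGroup.of y *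
      (FreeGroup.of (S.r (x, y)).1 * FreeGroup.of (S.r (x, y)).2)⁻¹}

/-- The canonical map from a solution to its structure group. -/
def toStructureGroup {Y : Type u} (S : Solution Y) (y : Y) : StructureGroup S :=
  PresentedGroup.of y

/-! ### The relation in the structure group -/

lemma structure_rel {Y : Type u} (S : Solution Y) (x y : Y) :
    toStructureGroup S x * toStructureGroup S y =
      toStructureGroup S (S.r (x, y)).1 * toStructureGroup S (S.r (x, y)).2 := by
  have h : (PresentedGroup.mk {w : FreeGroup Y | ∃ x y : Y,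
      w = FreeGroup.of x * FreeGroup.of y *
        (FreeGroup.of (S.r (x, y)).1 * FreeGroup.of (S.r (x, y)).2)⁻¹})
      (FreeGroup.of x * FreeGroup.of y *
        (FreeGroup.of (S.r (x, y)).1 * FreeGroup.of (S.r (x, y)).2)⁻¹) = 1 :=
    PresentedGroup.one_of_mem ⟨x, y, rfl⟩
  rw [map_mul, map_mul, map_inv, map_mul, mul_inv_eq_one] at h
  exact h

/-- If `λ_x(t) = x` then `t` and `ρ_t(x)` agree in the structure group. -/
lemma structure_diag {Y : Type u} (S : Solution Y) (x t : Y) (h : (S.r (x, t)).1 = x) :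
    toStructureGroup S t = toStructureGroup S (S.r (x, t)).2 := by
  have h1 := structure_rel S x t
  rw [h] at h1
  exact mul_left_cancel h1

/-! ### A separating solution on the integers -/

/-- The Lyubashenko solution `r (x, y) = (y + 1, x + 1)`. -/
def shiftSolution : Solution (ULift.{u} ℤ) where
  r := fun p => (⟨p.2.down + 1⟩, ⟨p.1.down + 1⟩)
  braid := by
    funext p
    rfl
  lam_bij := by
    intro x
    refine ⟨?_, ?_⟩
    · intro a b hab
      have : a.down + 1 = b.down + 1 := congrArg ULift.down hab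
      exact ULift.ext _ _ (by omega)
    · intro b
      exact ⟨⟨b.down - 1⟩, ULift.ext _ _ (by simp)⟩
  rho_bij := by
    intro x
    refine ⟨?_, ?_⟩
    · intro a b hab
      have : a.down + 1 = b.down + 1 := congrArg ULift.down hab
      exact ULift.ext _ _ (by omega)
    · intro b
      exact ⟨⟨b.down - 1⟩, ULift.ext _ _ (by simp)⟩

lemma not_injective {X F : Type u} [Nonempty X] (S : Solution F) (i : X → F)
    (hfree : IsFreeSolution S i) : ¬ Function.Injective (toStructureGroup S) := by
  intro hinj
  obtain ⟨x0⟩ := (inferInstance : Nonempty X)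
  obtain ⟨t, ht⟩ := (S.lam_bij (i x0)).2 (i x0)
  have ht' : (S.r (i x0, t)).1 = i x0 := ht
  have h1 : t = (S.r (i x0, t)).2 := hinj (structure_diag S (i x0) t ht')
  obtain ⟨φ, ⟨hφ, hφi⟩, -⟩ := hfree (ULift.{u} ℤ) shiftSolution (fun _ => ⟨0⟩)
  have h2 : (φ (S.r (i x0, t)).1, φ (S.r (i x0, t)).2) =
      shiftSolution.r (φ (i x0), φ t) := congrFun hφ (i x0, t)
  have h3 : φ (S.r (i x0, t)).1 = (shiftSolution.r (φ (i x0), φ t)).1 := congrArg Prod.fst h2
  have h4 : φ (S.r (i x0, t)).2 = (shiftSolution.r (φ (i x0), φ t)).2 := congrArg Prod.snd h2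
  rw [ht', hφi x0] at h3
  rw [← h1, hφi x0] at h4
  have h5 := congrArg ULift.down h3
  have h6 := congrArg ULift.down h4
  simp only [shiftSolution] at h5 h6
  omega

/-! ### Existence of free solutions -/

/-- Terms in the operations `λ, λ⁻¹, ρ, ρ⁻¹`. -/
inductive Term (X : Type u) : Type u
  | var : X → Term X
  | lam : Term X → Term X → Term X
  | lamInv : Term X → Term X → Term X
  | rho : Term X → Term X → Term X
  | rhoInv : Term X → Term X → Term X

open Term in
/-- The congruence generated by the axioms; `lam x y` stands for `λ_x(y)` and `rho y x` for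
`ρ_y(x)`. -/
inductive Rel {X : Type u} : Term X → Term X → Prop
  | refl (a : Term X) : Rel a a
  | symm {a b : Term X} : Rel a b → Rel b a
  | trans {a b c : Term X} : Rel a b → Rel b c → Rel a c
  | lam {a a' b b' : Term X} : Rel a a' → Rel b b' → Rel (lam a b) (lam a' b')
  | lamInv {a a' b b' : Term X} : Rel a a' → Rel b b' → Rel (lamInv a b) (lamInv a' b')
  | rho {a a' b b' : Term X} : Rel a a' → Rel b b' → Rel (rho a b) (rho a' b')
  | rhoInv {a a' b b' : Term X} : Rel a a' → Rel b b' → Rel (rhoInv a b) (rhoInv a' b')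
  | lam_lamInv (x y : Term X) : Rel (lam x (lamInv x y)) y
  | lamInv_lam (x y : Term X) : Rel (lamInv x (lam x y)) y
  | rho_rhoInv (x y : Term X) : Rel (rho x (rhoInv x y)) y
  | rhoInv_rho (x y : Term X) : Rel (rhoInv x (rho x y)) y
  | braid1 (x y z : Term X) :
      Rel (lam (lam x y) (lam (rho y x) z)) (lam x (lam y z))
  | braid2 (x y z : Term X) :
      Rel (rho (lam (rho y x) z) (lam x y)) (lam (rho (lam y z) x) (rho z y))
  | braid3 (x y z : Term X) :
      Rel (rho z (rho y x)) (rho (rho z y) (rho (lam y z) x))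

/-- The setoid of the congruence. -/
def termSetoid (X : Type u) : Setoid (Term X) :=
  ⟨Rel, ⟨Rel.refl, Rel.symm, Rel.trans⟩⟩

/-- The carrier of the free solution. -/
def FreeCarrier (X : Type u) : Type u := Quotient (termSetoid X)

/-- class of a term -/
def cl {X : Type u} (t : Term X) : FreeCarrier X := Quotient.mk (termSetoid X) t

def qlam {X : Type u} : FreeCarrier X → FreeCarrier X → FreeCarrier X :=
  Quotient.map₂ Term.lam (fun _ _ h1 _ _ h2 => Rel.lam h1 h2)

def qlamInv {X : Type u} : FreeCarrier X → FreeCarrier X → FreeCarrier X :=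
  Quotient.map₂ Term.lamInv (fun _ _ h1 _ _ h2 => Rel.lamInv h1 h2)

def qrho {X : Type u} : FreeCarrier X → FreeCarrier X → FreeCarrier X :=
  Quotient.map₂ Term.rho (fun _ _ h1 _ _ h2 => Rel.rho h1 h2)

def qrhoInv {X : Type u} : FreeCarrier X → FreeCarrier X → FreeCarrier X :=
  Quotient.map₂ Term.rhoInv (fun _ _ h1 _ _ h2 => Rel.rhoInv h1 h2)

lemma cl_sound {X : Type u} {a b : Term X} (h : Rel a b) : cl a = cl b :=
  Quotient.sound h

lemma exists_rep {X : Type u} (a : FreeCarrier X) : ∃ t, cl t = a :=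
  Quotient.exists_rep a

/-- The free solution. -/
def freeSolution (X : Type u) : Solution (FreeCarrier X) where
  r := fun p => (qlam p.1 p.2, qrho p.2 p.1)
  braid := by
    funext p
    obtain ⟨a, b, c⟩ := p
    obtain ⟨x, rfl⟩ := exists_rep a
    obtain ⟨y, rfl⟩ := exists_rep b
    obtain ⟨z, rfl⟩ := exists_rep c
    refine Prod.ext ?_ (Prod.ext ?_ ?_)
    · exact cl_sound (Rel.braid1 x y z)
    · exact cl_sound (Rel.braid2 x y z)
    · exact cl_sound (Rel.braid3 x y z)
  lam_bij := by
    intro a
    obtain ⟨x, rfl⟩ := exists_rep a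
    refine Function.bijective_iff_has_inverse.2 ⟨fun b => qlamInv (cl x) b, ?_, ?_⟩
    · intro b
      obtain ⟨y, rfl⟩ := exists_rep b
      exact cl_sound (Rel.lamInv_lam x y)
    · intro b
      obtain ⟨y, rfl⟩ := exists_rep b
      exact cl_sound (Rel.lam_lamInv x y)
  rho_bij := by
    intro a
    obtain ⟨x, rfl⟩ := exists_rep a
    refine Function.bijective_iff_has_inverse.2 ⟨fun b => qrhoInv (cl x) b, ?_, ?_⟩
    · intro b
      obtain ⟨y, rfl⟩ := exists_rep b
      exact cl_sound (Rel.rhoInv_rho x y)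
    · intro b
      obtain ⟨y, rfl⟩ := exists_rep b
      exact cl_sound (Rel.rho_rhoInv x y)

section Eval

variable {X Z : Type u} (T : Solution Z) (f : X → Z)

/-- The inverse of `λ_x` in a solution. -/
noncomputable def lamI (x y : Z) : Z := (Equiv.ofBijective _ (T.lam_bij x)).symm y

/-- The inverse of `ρ_y` in a solution. -/
noncomputable def rhoI (y x : Z) : Z := (Equiv.ofBijective _ (T.rho_bij y)).symm x

lemma lam_lamI (x y : Z) : (T.r (x, lamI T x y)).1 = y :=
  (Equiv.ofBijective _ (T.lam_bij x)).apply_symm_apply y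

lemma lamI_lam (x y : Z) : lamI T x (T.r (x, y)).1 = y :=
  (Equiv.ofBijective _ (T.lam_bij x)).symm_apply_apply y

lemma rho_rhoI (y x : Z) : (T.r (rhoI T y x, y)).2 = x :=
  (Equiv.ofBijective _ (T.rho_bij y)).apply_symm_apply x

lemma rhoI_rho (y x : Z) : rhoI T y (T.r (x, y)).2 = x :=
  (Equiv.ofBijective _ (T.rho_bij y)).symm_apply_apply x

/-- Evaluation of terms. -/
noncomputable def evalTerm : Term X → Z
  | Term.var x => f x
  | Term.lam a b => (T.r (evalTerm a, evalTerm b)).1
  | Term.lamInv a b => lamI T (evalTerm a) (evalTerm b)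
  | Term.rho a b => (T.r (evalTerm b, evalTerm a)).2
  | Term.rhoInv a b => rhoI T (evalTerm a) (evalTerm b)

lemma evalTerm_rel {a b : Term X} (h : Rel a b) : evalTerm T f a = evalTerm T f b := by
  induction h with
  | refl a => rfl
  | symm _ ih => exact ih.symm
  | trans _ _ ih1 ih2 => exact ih1.trans ih2
  | lam _ _ ih1 ih2 => simp only [evalTerm, ih1, ih2]
  | lamInv _ _ ih1 ih2 => simp only [evalTerm, ih1, ih2]
  | rho _ _ ih1 ih2 => simp only [evalTerm, ih1, ih2]
  | rhoInv _ _ ih1 ih2 => simp only [evalTerm, ih1, ih2]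
  | lam_lamInv x y => exact lam_lamI T _ _
  | lamInv_lam x y => exact lamI_lam T _ _
  | rho_rhoInv x y => exact rho_rhoI T _ _
  | rhoInv_rho x y => exact rhoI_rho T _ _
  | braid1 x y z =>
      exact congrArg (fun p : Z × Z × Z => p.1)
        (congrFun T.braid (evalTerm T f x, evalTerm T f y, evalTerm T f z))
  | braid2 x y z =>
      exact congrArg (fun p : Z × Z × Z => p.2.1)
        (congrFun T.braid (evalTerm T f x, evalTerm T f y, evalTerm T f z))
  | braid3 x y z =>
      exact congrArg (fun p : Z × Z × Z => p.2.2)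
        (congrFun T.braid (evalTerm T f x, evalTerm T f y, evalTerm T f z))

/-- The induced morphism. -/
noncomputable def liftMap : FreeCarrier X → Z :=
  Quotient.lift (s := termSetoid X) (evalTerm T f) (fun _ _ h => evalTerm_rel T f h)

lemma liftMap_morphism : IsMorphism (freeSolution X) T (liftMap T f) := by
  funext p
  obtain ⟨a, b⟩ := p
  obtain ⟨x, rfl⟩ := exists_rep a
  obtain ⟨y, rfl⟩ := exists_rep b
  rfl

end Eval

lemma isFree_freeSolution (X : Type u) :
    IsFreeSolution (freeSolution X) (fun x : X => cl (Term.var x)) := by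
  intro Z T f
  refine ⟨liftMap T f, ⟨liftMap_morphism T f, fun x => rfl⟩, ?_⟩
  rintro ψ ⟨hψ, hψi⟩
  have hl : ∀ a b : FreeCarrier X, ψ (qlam a b) = (T.r (ψ a, ψ b)).1 := fun a b =>
    congrArg Prod.fst (congrFun hψ (a, b))
  have hr : ∀ a b : FreeCarrier X, ψ (qrho b a) = (T.r (ψ a, ψ b)).2 := fun a b =>
    congrArg Prod.snd (congrFun hψ (a, b))
  have key : ∀ t : Term X, ψ (cl t) = evalTerm T f t := by
    intro t
    induction t with
    | var x => exact hψi x
    | lam a b iha ihb =>
        have h1 : ψ (cl (Term.lam a b)) = (T.r (ψ (cl a), ψ (cl b))).1 := hl (cl a) (cl b)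
        rw [h1, iha, ihb]; rfl
    | lamInv a b iha ihb =>
        have h1 : ψ (cl b) = (T.r (ψ (cl a), ψ (cl (Term.lamInv a b)))).1 := by
          rw [← hl]
          exact congrArg ψ (cl_sound (Rel.lam_lamInv a b)).symm
        rw [iha, ihb] at h1
        have h2 : evalTerm T f (Term.lamInv a b) = lamI T (evalTerm T f a) (evalTerm T f b) := rfl
        rw [h2, h1, lamI_lam]
    | rho a b iha ihb =>
        have h1 : ψ (cl (Term.rho a b)) = (T.r (ψ (cl b), ψ (cl a))).2 := hr (cl b) (cl a)
        rw [h1, iha, ihb]; rfl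
    | rhoInv a b iha ihb =>
        have h1 : ψ (cl b) = (T.r (ψ (cl (Term.rhoInv a b)), ψ (cl a))).2 := by
          rw [← hr]
          exact congrArg ψ (cl_sound (Rel.rho_rhoInv a b)).symm
        rw [iha, ihb] at h1
        have h2 : evalTerm T f (Term.rhoInv a b) = rhoI T (evalTerm T f a) (evalTerm T f b) := rfl
        rw [h2, h1, rhoI_rho]
  funext a
  obtain ⟨t, rfl⟩ := exists_rep a
  exact key t

/-- For every non-empty set `X` the free solution on `X` exists, and whichever free solution on
`X` one takes, its canonical map to its structure group is not injective. -/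
theorem result (X : Type u) [Nonempty X] :
    (∃ (F : Type u) (S : Solution F) (i : X → F), IsFreeSolution S i) ∧
    ∀ (F : Type u) (S : Solution F) (i : X → F), IsFreeSolution S i →
      ¬ Function.Injective (toStructureGroup S) :=
  ⟨⟨FreeCarrier X, freeSolution X, _, isFree_freeSolution X⟩,
    fun _ S i h => not_injective S i h⟩

end Pool.Agent.Results.MP_f0defb_al.FreeSolutionNotInjective
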